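import Pool.Agent.Y315.NL.Stm2

/-!
Job NL-TWM (helper657): the length of a set invariant under the lattice generated by `(0, 2π)` and
`(L, τ)`.
-/

set_option autoImplicit false

open MeasureTheory Set
open scoped ENNReal

noncomputable section

namespace Pool.Agent.Y657.NL

abbrev E2 := EuclideanSpace ℝ (Fin 2)

/-- the vector with coordinates `a`, `b` -/
def vec (a b : ℝ) : E2 := !₂[a, b]

@[simp] lemma vec0 (a b : ℝ) : (vec a b) 0 = a := rfl
@[simp] lemma vec1 (a b : ℝ) : (vec a b) 1 = b := rfl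

lemma trans_pre (v : E2) (A : Set E2) : μH[1] ((fun p => p + v) ⁻¹' A) = μH[1] A :=
  (IsometryEquiv.addRight v).hausdorffMeasure_preimage 1 A

lemma meas0 : Measurable (fun p : E2 => p 0) := by fun_prop
lemma meas1 : Measurable (fun p : E2 => p 1) := by fun_prop

/-- the part of `Z` with the first coordinate in `[a, b)` -/
def part (Z : Set E2) (a b : ℝ) : Set E2 := Z ∩ {p | a ≤ p 0 ∧ p 0 < b}

lemma meas_part {Z : Set E2} (hZ : MeasurableSet Z) (a b : ℝ) : MeasurableSet (part Z a b) :=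
  hZ.inter ((measurableSet_le measurable_const meas0).inter
    (measurableSet_lt meas0 measurable_const))

/-- the projection of the length to the second coordinate -/
def nu (Z : Set E2) (a b : ℝ) : Measure ℝ := (μH[1].restrict (part Z a b)).map (fun p => p 1)

lemma nu_apply (Z : Set E2) (a b : ℝ) {A : Set ℝ} (hA : MeasurableSet A) :
    nu Z a b A = μH[1] ({p | p 1 ∈ A} ∩ part Z a b) := by
  rw [nu, Measure.map_apply meas1 hA, Measure.restrict_apply (meas1 hA)]
  rfl

lemma inv_int {Z : Set E2} {T : ℝ}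
    (h2 : ∀ p q : E2, q 0 = p 0 → q 1 = p 1 + T → (p ∈ Z ↔ q ∈ Z)) (k : ℤ) (p : E2) :
    p ∈ Z ↔ p + vec 0 (k * T) ∈ Z := by
  induction k using Int.induction_on with
  | zero =>
    have : p + vec 0 (((0 : ℤ) : ℝ) * T) = p := by
      ext i
      fin_cases i <;> simp [vec]
    rw [this]
  | succ k ih =>
    rw [ih]
    apply h2
    · simp
    · simp
      ring
  | pred k ih =>
    rw [ih]
    symm
    apply h2
    · simp
    · simp
      ring

lemma fund {T : ℝ} (hT : 0 < T) (t : ℝ) (μ : Measure ℝ) :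
    IsAddFundamentalDomain (AddSubgroup.zmultiples T) (Ico t (t + T)) μ := by
  refine IsAddFundamentalDomain.mk' measurableSet_Ico.nullMeasurableSet fun x => ?_
  have : Function.Bijective (codRestrict (fun n : ℤ => n • T) (AddSubgroup.zmultiples T) _) :=
    (Equiv.ofInjective (fun n : ℤ => n • T) (zsmul_left_strictMono hT).injective).bijective
  refine this.existsUnique_iff.2 ?_
  obtain ⟨m, hm, hu⟩ := existsUnique_add_zsmul_mem_Ico hT x t
  refine ⟨m, ?_, fun k hk => hu k ?_⟩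
  · show m • T + x ∈ Ico t (t + T)
    rw [add_comm (m • T) x]
    exact hm
  · show x + k • T ∈ Ico t (t + T)
    rw [add_comm x (k • T)]
    exact hk

lemma shift {Z : Set E2} {T : ℝ} (hT : 0 < T)
    (h2 : ∀ p q : E2, q 0 = p 0 → q 1 = p 1 + T → (p ∈ Z ↔ q ∈ Z)) (a b c : ℝ) :
    nu Z a b (Ico c (c + T)) = nu Z a b (Ico 0 (0 + T)) := by
  have : VAddInvariantMeasure (AddSubgroup.zmultiples T) ℝ (nu Z a b) := by
    refine ⟨?_⟩
    rintro ⟨g, hg⟩ s hs
    obtain ⟨k, rfl⟩ := AddSubgroup.mem_zmultiples_iff.1 hg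
    have hm : MeasurableSet ((fun x : ℝ => (⟨k • T, hg⟩ : AddSubgroup.zmultiples T) +ᵥ x) ⁻¹' s) :=
      (measurable_const_add (k • T)) hs
    rw [nu_apply _ _ _ hm, nu_apply _ _ _ hs, ← trans_pre (vec 0 (k * T)) ({p | p 1 ∈ s} ∩ part Z a b)]
    congr 1
    ext p
    simp only [mem_inter_iff, mem_ofPred_eq, mem_preimage, part]
    have e1 : ((⟨k • T, hg⟩ : AddSubgroup.zmultiples T) +ᵥ p 1 : ℝ) = (p + vec 0 (k * T)) 1 := by
      show k • T + p 1 = (p + vec 0 (k * T)) 1
      simp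
      ring
    have e0 : (p + vec 0 (k * T)) 0 = p 0 := by simp
    rw [e1, e0, ← inv_int h2 k p]
  exact (fund hT c (nu Z a b)).measure_eq (fund hT 0 (nu Z a b))

/-- the strips -/
lemma strip {Z : Set E2} {L τ T : ℝ} (hT : 0 < T)
    (h1 : ∀ p q : E2, q 0 = p 0 + L → q 1 = p 1 + τ → (p ∈ Z ↔ q ∈ Z))
    (h2 : ∀ p q : E2, q 0 = p 0 → q 1 = p 1 + T → (p ∈ Z ↔ q ∈ Z)) (a : ℝ) :
    nu Z (a + L) (a + L + L) (Ico 0 (0 + T)) = nu Z a (a + L) (Ico 0 (0 + T)) := by
  rw [← shift hT h2 (a + L) (a + L + L) τ, nu_apply _ _ _ measurableSet_Ico,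
    nu_apply _ _ _ measurableSet_Ico, ← trans_pre (vec L τ)]
  congr 1
  ext p
  simp only [mem_inter_iff, mem_ofPred_eq, mem_preimage, part, mem_Ico]
  have e0 : (p + vec L τ) 0 = p 0 + L := by simp
  have e1 : (p + vec L τ) 1 = p 1 + τ := by simp
  rw [← h1 p (p + vec L τ) e0 e1, e0, e1]
  constructor
  · rintro ⟨⟨k1, k2⟩, k3, k4, k5⟩
    exact ⟨⟨by linarith, by linarith⟩, k3, by linarith, by linarith⟩
  · rintro ⟨⟨k1, k2⟩, k3, k4, k5⟩
    exact ⟨⟨by linarith, by linarith⟩, k3, by linarith, by linarith⟩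

theorem twm : Pool.Agent.Y315.NL.S_TWM := by
  intro Z L τ hL hZ h1 h2 M
  have hT : 0 < 2 * Real.pi := by positivity
  have hZm := hZ.measurableSet
  have hnu : ∀ a b : ℝ, nu Z a b (Ico 0 (0 + 2 * Real.pi)) =
      μH[1] (Z ∩ {p | a ≤ p 0 ∧ p 0 < b ∧ 0 ≤ p 1 ∧ p 1 < 2 * Real.pi}) := by
    intro a b
    rw [nu_apply _ _ _ measurableSet_Ico]
    congr 1
    ext p
    simp only [mem_inter_iff, mem_ofPred_eq, part, mem_Ico, zero_add]
    tauto
  rw [← hnu, ← hnu]
  have hj : ∀ j : ℕ, nu Z (j * L) (j * L + L) (Ico 0 (0 + 2 * Real.pi)) =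
      nu Z 0 L (Ico 0 (0 + 2 * Real.pi)) := by
    intro j
    induction j with
    | zero => simp
    | succ j ih =>
      have e : (((j + 1 : ℕ) : ℝ) * L) = j * L + L := by push_cast; ring
      rw [e, strip hT h1 h2, ih]
  induction M with
  | zero =>
    have : part Z 0 (((0 : ℕ) : ℝ) * L) = ∅ := by
      ext p
      simp only [part, mem_inter_iff, mem_ofPred_eq, mem_empty_iff_false, iff_false, not_and]
      intro _ h
      simp only [Nat.cast_zero, zero_mul, not_lt]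
      exact h
    rw [nu_apply Z 0 (((0 : ℕ) : ℝ) * L) measurableSet_Ico, this]
    simp
  | succ M ih =>
    have hM : (0 : ℝ) ≤ M * L := by positivity
    have hsplit : {p : E2 | p 1 ∈ Ico 0 (0 + 2 * Real.pi)} ∩ part Z 0 (((M + 1 : ℕ) : ℝ) * L) =
        ({p : E2 | p 1 ∈ Ico 0 (0 + 2 * Real.pi)} ∩ part Z 0 (M * L)) ∪
        ({p : E2 | p 1 ∈ Ico 0 (0 + 2 * Real.pi)} ∩ part Z (M * L) (M * L + L)) := by
      have e : (((M + 1 : ℕ) : ℝ) * L) = M * L + L := by push_cast; ring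
      rw [e]
      ext p
      simp only [part, mem_inter_iff, mem_ofPred_eq, mem_union]
      constructor
      · rintro ⟨k1, k2, k3, k4⟩
        rcases lt_or_ge (p 0) (M * L) with h | h
        · exact Or.inl ⟨k1, k2, k3, h⟩
        · exact Or.inr ⟨k1, k2, h, k4⟩
      · rintro (⟨k1, k2, k3, k4⟩ | ⟨k1, k2, k3, k4⟩)
        · exact ⟨k1, k2, k3, by linarith⟩
        · exact ⟨k1, k2, by linarith, k4⟩
    rw [nu_apply Z 0 (((M + 1 : ℕ) : ℝ) * L) measurableSet_Ico, hsplit, measure_union]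
    · rw [← nu_apply Z 0 (M * L) measurableSet_Ico,
        ← nu_apply Z (M * L) (M * L + L) measurableSet_Ico, hj M, ← ih]
      push_cast
      rw [add_mul, one_mul]
    · rw [Set.disjoint_left]
      rintro p ⟨_, _, _, k4⟩ ⟨_, _, k3, _⟩
      exact absurd k3 (not_le.2 k4)
    · exact (meas1 measurableSet_Ico).inter (meas_part hZm _ _)

end Pool.Agent.Y657.NL
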